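import Pool.Agent.Helper22.WC.Defs
import Pool.Agent.Helper60.AD.Worst
import Pool.Agent.Helper11.AD.Small

/-!
# WC, block D1b: the rational centres suffice for almost every radius

The largest number of points over the rational centres, and the smallest number over all centres, are nondecreasing functions of the radius, hence continuous off
a countable set. For `R < r` a rational centre does at `r` at least as well as the best centre at `R`, and a rational centre at `R` does not do better than the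
worst centre at `r`.
-/

open MeasureTheory Real Set Filter Topology

set_option autoImplicit false

namespace Pool.Agent.Helper54.WC

open Pool.Agent.Helper22.AE
open Pool.Agent.Helper22.AC (cntc)
open Pool.Agent.Helper22.WC
open Pool.Agent.Helper22.OV (shf exists_shift)

private theorem ball54 {H : ℝ → ℝ} (hH : ContDiff ℝ 2 H) (hp : Function.Periodic H (2 * π)) (hr : ∀ θ, 0 < H θ + deriv (deriv H) θ) :
    ∃ (v : ℝ × ℝ) (δ : ℝ), 0 < δ ∧ ∀ w : ℝ × ℝ, |w.1 - v.1| ≤ δ → |w.2 - v.2| ≤ δ → ∀ t : ℝ, w.1 * cos t + w.2 * sin t ≤ H t := by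
  obtain ⟨v, hv⟩ := exists_shift hH hp hr
  have hc : Continuous (shf H v) := hv.smooth.continuous
  obtain ⟨t₀, _, ht₀⟩ := (isCompact_Icc (a := (0 : ℝ)) (b := 2 * π)).exists_isMinOn
    (nonempty_Icc.2 (by positivity)) hc.continuousOn
  have hmin : ∀ t, shf H v t₀ ≤ shf H v t := by
    intro t
    obtain ⟨s, hs, hst⟩ := hv.per.exists_mem_Ico₀ (by positivity : (0 : ℝ) < 2 * π) t
    rw [hst]
    exact ht₀ ⟨hs.1, hs.2.le⟩
  have h0 := hv.pos t₀
  refine ⟨(-v.1, -v.2), shf H v t₀ / 2, by positivity, ?_⟩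
  intro w h1 h2 t
  have h3 := hmin t
  have e3 : shf H v t = H t + (v.1 * cos t + v.2 * sin t) := by
    unfold shf
    ring
  rw [e3] at h3
  simp only [sub_neg_eq_add] at h1 h2
  have h4 : (w.1 + v.1) * cos t ≤ shf H v t₀ / 2 := by
    calc (w.1 + v.1) * cos t ≤ |(w.1 + v.1) * cos t| := le_abs_self _
      _ = |w.1 + v.1| * |cos t| := abs_mul _ _
      _ ≤ |w.1 + v.1| * 1 := mul_le_mul_of_nonneg_left (abs_cos_le_one t) (abs_nonneg _)
      _ ≤ _ := by rw [mul_one]; exact h1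
  have h5 : (w.2 + v.2) * sin t ≤ shf H v t₀ / 2 := by
    calc (w.2 + v.2) * sin t ≤ |(w.2 + v.2) * sin t| := le_abs_self _
      _ = |w.2 + v.2| * |sin t| := abs_mul _ _
      _ ≤ |w.2 + v.2| * 1 := mul_le_mul_of_nonneg_left (abs_sin_le_one t) (abs_nonneg _)
      _ ≤ _ := by rw [mul_one]; exact h2
  linarith

/-- a rational point near a point -/
private theorem rat54 (a : ℝ) {ε : ℝ} (hε : 0 < ε) : ∃ q : ℚ, |(q : ℝ) - a| ≤ ε := by
  obtain ⟨q, h1, h2⟩ := exists_rat_btwn (show a - ε < a + ε by linarith)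
  exact ⟨q, abs_le.2 ⟨by linarith, by linarith⟩⟩

/-- a rational centre at the larger radius contains the points of any centre at the smaller radius -/
private theorem up54 {H : ℝ → ℝ} {v : ℝ × ℝ} {δ : ℝ} (hδ : 0 < δ)
    (hv : ∀ w : ℝ × ℝ, |w.1 - v.1| ≤ δ → |w.2 - v.2| ≤ δ → ∀ t : ℝ, w.1 * cos t + w.2 * sin t ≤ H t) {R r : ℝ} (hr : R < r) (c : ℝ × ℝ) :
    ∃ q : ℚ × ℚ, cntc H c R ≤ cntc H ((q.1 : ℝ), (q.2 : ℝ)) r := by
  have hd : 0 < r - R := sub_pos.2 hr
  have hd0 : R - r ≠ 0 := by linarith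
  obtain ⟨q1, h1⟩ := rat54 (c.1 + (R - r) * v.1) (mul_pos hd hδ)
  obtain ⟨q2, h2⟩ := rat54 (c.2 + (R - r) * v.2) (mul_pos hd hδ)
  have key : ∀ a b x : ℝ, |x - (a + (R - r) * b)| ≤ (r - R) * δ → |(x - a) / (R - r) - b| ≤ δ := by
    intro a b x hx
    have e : (x - a) / (R - r) - b = (x - (a + (R - r) * b)) / (R - r) := by
      field_simp
      ring
    rw [e, abs_div, div_le_iff₀ (abs_pos.2 hd0), abs_of_neg (by linarith : R - r < 0)]
    calc _ ≤ (r - R) * δ := hx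
      _ = δ * -(R - r) := by ring
  have h := Pool.Agent.Helper60.AD.cntc_mono (H := H) (v := ((q1 - c.1) / (R - r), (q2 - c.2) / (R - r)))
    (hv _ (key _ _ _ h1) (key _ _ _ h2)) hr.le c
  refine ⟨(q1, q2), ?_⟩
  have e : (c.1 + (R - r) * (((q1 : ℝ) - c.1) / (R - r)), c.2 + (R - r) * (((q2 : ℝ) - c.2) / (R - r))) = ((q1 : ℝ), (q2 : ℝ)) := by
    ext
    · show c.1 + (R - r) * (((q1 : ℝ) - c.1) / (R - r)) = q1
      rw [mul_div_cancel₀ _ hd0]
      ring
    · show c.2 + (R - r) * (((q2 : ℝ) - c.2) / (R - r)) = q2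
      rw [mul_div_cancel₀ _ hd0]
      ring
  rw [← e]
  exact h

/-- a rational centre at the smaller radius has no other points than a given centre at the larger radius -/
private theorem down54 {H : ℝ → ℝ} {v : ℝ × ℝ} {δ : ℝ} (hδ : 0 < δ)
    (hv : ∀ w : ℝ × ℝ, |w.1 - v.1| ≤ δ → |w.2 - v.2| ≤ δ → ∀ t : ℝ, w.1 * cos t + w.2 * sin t ≤ H t) {R r : ℝ} (hr : R < r) (c : ℝ × ℝ) :
    ∃ q : ℚ × ℚ, cntc H ((q.1 : ℝ), (q.2 : ℝ)) R ≤ cntc H c r := by
  have hd : 0 < r - R := sub_pos.2 hr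
  have hd0 : R - r ≠ 0 := by linarith
  obtain ⟨q1, h1⟩ := rat54 (c.1 - (R - r) * v.1) (mul_pos hd hδ)
  obtain ⟨q2, h2⟩ := rat54 (c.2 - (R - r) * v.2) (mul_pos hd hδ)
  have key : ∀ a b x : ℝ, |x - (a - (R - r) * b)| ≤ (r - R) * δ → |(a - x) / (R - r) - b| ≤ δ := by
    intro a b x hx
    have e : (a - x) / (R - r) - b = -((x - (a - (R - r) * b)) / (R - r)) := by
      field_simp
      ring
    rw [e, abs_neg, abs_div, div_le_iff₀ (abs_pos.2 hd0), abs_of_neg (by linarith : R - r < 0)]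
    calc _ ≤ (r - R) * δ := hx
      _ = δ * -(R - r) := by ring
  have h := Pool.Agent.Helper60.AD.cntc_mono (H := H) (v := ((c.1 - q1) / (R - r), (c.2 - q2) / (R - r)))
    (hv _ (key _ _ _ h1) (key _ _ _ h2)) hr.le ((q1 : ℝ), (q2 : ℝ))
  refine ⟨(q1, q2), ?_⟩
  have e : (((q1 : ℝ), (q2 : ℝ)).1 + (R - r) * ((c.1 - q1) / (R - r)), ((q1 : ℝ), (q2 : ℝ)).2 + (R - r) * ((c.2 - q2) / (R - r))) = c := by
    ext
    · show (q1 : ℝ) + (R - r) * ((c.1 - q1) / (R - r)) = c.1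
      rw [mul_div_cancel₀ _ hd0]
      ring
    · show (q2 : ℝ) + (R - r) * ((c.2 - q2) / (R - r)) = c.2
      rw [mul_div_cancel₀ _ hd0]
      ring
  rw [e] at h
  exact h

/-- the largest distance to `a` is the maximum of the distances of the extreme values -/
private theorem sup_abs54 {ι : Type} [Nonempty ι] {f : ι → ℝ} (ha : BddAbove (range f)) (hb : BddBelow (range f)) (a : ℝ) :
    ⨆ i, |f i - a| = max ((⨆ i, f i) - a) (a - ⨅ i, f i) := by
  have hle : ∀ i, |f i - a| ≤ max ((⨆ i, f i) - a) (a - ⨅ i, f i) := by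
    intro i
    have h1 := le_ciSup ha i
    have h2 := ciInf_le hb i
    rw [abs_le]
    constructor
    · have := le_max_right ((⨆ i, f i) - a) (a - ⨅ i, f i)
      linarith
    · have := le_max_left ((⨆ i, f i) - a) (a - ⨅ i, f i)
      linarith
  have hbd : BddAbove (range fun i => |f i - a|) := ⟨_, by rintro x ⟨i, rfl⟩; exact hle i⟩
  refine le_antisymm (ciSup_le hle) (max_le ?_ ?_)
  · have : (⨆ i, f i) ≤ a + ⨆ i, |f i - a| := ciSup_le fun i => by
      have h1 := le_ciSup hbd i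
      have h2 := le_abs_self (f i - a)
      linarith
    linarith
  · have : a - (⨆ i, |f i - a|) ≤ ⨅ i, f i := le_ciInf fun i => by
      have h1 := le_ciSup hbd i
      have h2 := neg_abs_le (f i - a)
      linarith
    linarith

/-- D1b: the rational centres suffice for almost every radius -/
theorem supE_ae {H : ℝ → ℝ} (hH : ContDiff ℝ 2 H) (hp : Function.Periodic H (2 * π)) (hr : ∀ θ, 0 < H θ + deriv (deriv H) θ) :
    ∀ᵐ R : ℝ, 0 < R → SupE H R = SupQ H R := by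
  obtain ⟨v, δ, hδ, hv⟩ := ball54 hH hp hr
  have hba : ∀ R : ℝ, 0 ≤ R → BddAbove (range fun c : ℝ × ℝ => cntc H c R) := fun R hR =>
    ⟨_, by rintro x ⟨c, rfl⟩; exact (Pool.Agent.Helper11.AD.cntc_le H c R hR).2⟩
  have hbb : ∀ R : ℝ, 0 ≤ R → BddBelow (range fun c : ℝ × ℝ => cntc H c R) := fun R hR =>
    ⟨0, by rintro x ⟨c, rfl⟩; exact (Pool.Agent.Helper11.AD.cntc_le H c R hR).1⟩
  have hqa : ∀ R : ℝ, 0 ≤ R → BddAbove (range fun c : ℚ × ℚ => cntc H ((c.1 : ℝ), (c.2 : ℝ)) R) := fun R hR =>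
    ⟨_, by rintro x ⟨c, rfl⟩; exact (Pool.Agent.Helper11.AD.cntc_le H _ R hR).2⟩
  have hqb : ∀ R : ℝ, 0 ≤ R → BddBelow (range fun c : ℚ × ℚ => cntc H ((c.1 : ℝ), (c.2 : ℝ)) R) := fun R hR =>
    ⟨0, by rintro x ⟨c, rfl⟩; exact (Pool.Agent.Helper11.AD.cntc_le H _ R hR).1⟩
  set M : ℝ → ℝ := fun R => ⨆ c : ℝ × ℝ, cntc H c R with hM
  set MQ : ℝ → ℝ := fun R => ⨆ c : ℚ × ℚ, cntc H ((c.1 : ℝ), (c.2 : ℝ)) R with hMQ
  set m : ℝ → ℝ := fun R => ⨅ c : ℝ × ℝ, cntc H c R with hm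
  set mQ : ℝ → ℝ := fun R => ⨅ c : ℚ × ℚ, cntc H ((c.1 : ℝ), (c.2 : ℝ)) R with hmQ
  have h1 : ∀ R : ℝ, 0 ≤ R → MQ R ≤ M R := fun R hR =>
    ciSup_le fun c => le_ciSup (hba R hR) ((c.1 : ℝ), (c.2 : ℝ))
  have h2 : ∀ R : ℝ, 0 ≤ R → m R ≤ mQ R := fun R hR =>
    le_ciInf fun c => ciInf_le (hbb R hR) ((c.1 : ℝ), (c.2 : ℝ))
  have h3 : ∀ R r : ℝ, 0 ≤ R → R < r → M R ≤ MQ r := fun R r hR hRr =>
    ciSup_le fun c => by
      obtain ⟨q, hq⟩ := up54 hδ hv hRr c
      exact hq.trans (le_ciSup (hqa r (hR.trans hRr.le)) q)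
  have h4 : ∀ R r : ℝ, 0 ≤ R → R < r → mQ R ≤ m r := fun R r hR hRr =>
    le_ciInf fun c => by
      obtain ⟨q, hq⟩ := down54 hδ hv hRr c
      exact (ciInf_le (hqb R hR) q).trans hq
  have hmono1 : Monotone (fun R => MQ (max R 0)) := by
    intro R r hRr
    dsimp only
    rcases (max_le_max hRr (le_refl (0 : ℝ))).eq_or_lt with h | h
    · rw [h]
    · exact (h1 _ (le_max_right _ _)).trans (h3 _ _ (le_max_right _ _) h)
  have hmono2 : Monotone (fun R => m (max R 0)) := by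
    intro R r hRr
    dsimp only
    rcases (max_le_max hRr (le_refl (0 : ℝ))).eq_or_lt with h | h
    · rw [h]
    · exact (h2 _ (le_max_right _ _)).trans (h4 _ _ (le_max_right _ _) h)
  have c1 := hmono1.countable_not_continuousAt.ae_notMem (volume : Measure ℝ)
  have c2 := hmono2.countable_not_continuousAt.ae_notMem (volume : Measure ℝ)
  filter_upwards [c1, c2] with R hc1 hc2 hR
  simp only [not_not] at hc1 hc2
  have e1 : M R = MQ R := by
    refine le_antisymm ?_ (h1 R hR.le)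
    have ht : Tendsto (fun R => MQ (max R 0)) (𝓝[>] R) (𝓝 (MQ (max R 0))) := hc1.tendsto.mono_left nhdsWithin_le_nhds
    rw [max_eq_left hR.le] at ht
    refine ge_of_tendsto ht ?_
    filter_upwards [self_mem_nhdsWithin] with r hr'
    have hr0 : 0 ≤ r := hR.le.trans (le_of_lt hr')
    rw [max_eq_left hr0]
    exact h3 R r hR.le hr'
  have e2 : m R = mQ R := by
    refine le_antisymm (h2 R hR.le) ?_
    have ht : Tendsto (fun R => m (max R 0)) (𝓝[>] R) (𝓝 (m (max R 0))) := hc2.tendsto.mono_left nhdsWithin_le_nhds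
    rw [max_eq_left hR.le] at ht
    refine ge_of_tendsto ht ?_
    filter_upwards [self_mem_nhdsWithin] with r hr'
    have hr0 : 0 ≤ r := hR.le.trans (le_of_lt hr')
    rw [max_eq_left hr0]
    exact h4 R r hR.le hr'
  have f1 : SupE H R = max (M R - area H * R ^ 2) (area H * R ^ 2 - m R) := sup_abs54 (hba R hR.le) (hbb R hR.le) _
  have f2 : SupQ H R = max (MQ R - area H * R ^ 2) (area H * R ^ 2 - mQ R) := sup_abs54 (hqa R hR.le) (hqb R hR.le) _
  rw [f1, f2, e1, e2]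

end Pool.Agent.Helper54.WC
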